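import Pool.Agent.Helper12.XG.St

/-!
# XG, module NUE: extension of the approximations from primes to all `n ≤ y`
-/

set_option autoImplicit false

namespace Pool.Agent.Helper58.XG

open Finset Polynomial Pool.Agent.Helper12.XG Pool.Agent.Helper14.GS

private lemma mul_step (t a b x y e f : ℝ) (h1 : |t * a - x| ≤ e) (h2 : |t * b - y| ≤ f) :
    |t * (a + b) - (x + y)| ≤ e + f := by
  have : t * (a + b) - (x + y) = (t * a - x) + (t * b - y) := by ring
  rw [this]
  exact (abs_add_le _ _).trans (add_le_add h1 h2)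

/-- every `n` with `1 ≤ n ≤ y` has an approximation with the error `(n - 1) ε`. -/
private lemma exists_app (y : ℕ) (t ε : ℝ) (ν : ℕ → ℤ) (hε : 0 ≤ ε)
    (hν : ∀ p : ℕ, p.Prime → p ≤ y → |t * Real.log p - ν p| ≤ ε) :
    ∀ n : ℕ, 1 ≤ n → n ≤ y → ∃ m : ℤ, |t * Real.log n - m| ≤ ((n : ℝ) - 1) * ε := by
  intro n
  induction n using Nat.strong_induction_on with
  | _ n ih =>
    intro h1 hy
    rcases Nat.eq_or_lt_of_le h1 with h1 | h1
    · subst h1
      exact ⟨0, by simp⟩
    · by_cases hp : n.Prime
      · refine ⟨ν n, (hν n hp hy).trans ?_⟩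
        have h2 : (2 : ℝ) ≤ n := by exact_mod_cast hp.two_le
        nlinarith
      · obtain ⟨a, b, ha, hb, hab⟩ : ∃ a b : ℕ, 1 < a ∧ 1 < b ∧ n = a * b := by
          obtain ⟨a, ha, ha1, ha2⟩ := Nat.exists_dvd_of_not_prime2 h1 hp
          obtain ⟨b, hb⟩ := ha
          refine ⟨a, b, by omega, ?_, hb⟩
          rcases Nat.lt_or_ge 1 b with h | h
          · exact h
          · interval_cases b
            · omega
            · omega
        have han : a < n := by rw [hab]; nlinarith
        have hbn : b < n := by rw [hab]; nlinarith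
        obtain ⟨m1, hm1⟩ := ih a han (by omega) (by omega)
        obtain ⟨m2, hm2⟩ := ih b hbn (by omega) (by omega)
        refine ⟨m1 + m2, ?_⟩
        have hlog : Real.log (n : ℝ) = Real.log (a : ℝ) + Real.log (b : ℝ) := by
          rw [hab, Nat.cast_mul, Real.log_mul]
          · have : (0 : ℝ) < a := by exact_mod_cast (by omega : 0 < a)
            exact this.ne'
          · have : (0 : ℝ) < b := by exact_mod_cast (by omega : 0 < b)
            exact this.ne'
        rw [hlog, Int.cast_add]
        refine (mul_step t _ _ _ _ _ _ hm1 hm2).trans ?_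
        have h3 : (a : ℝ) + b ≤ n := by
          have : a + b ≤ n := by rw [hab]; nlinarith
          exact_mod_cast this
        nlinarith

theorem hNUE : StNUE := by
  intro y t ε ν hε hν
  classical
  have key := exists_app y t ε ν hε hν
  refine ⟨fun n => if h : 1 ≤ n ∧ n ≤ y then (key n h.1 h.2).choose else 0, ?_⟩
  intro n h1 h2
  have h : 1 ≤ n ∧ n ≤ y := ⟨h1, h2⟩
  simp only [h, and_self, dif_pos]
  refine (key n h1 h2).choose_spec.trans ?_
  have h3 : (n : ℝ) ≤ y := by exact_mod_cast h2
  nlinarith

end Pool.Agent.Helper58.XG
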